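import Pool.Agent.Lib_helper41.LVB.Defs

/-!
# Natural averages: definitions.
-/

namespace Pool.Agent.KSL

open Pool.Agent.LVB Pool.Agent.LEV Complex MeasureTheory Filter Topology UpperHalfPlane ModularGroup
  ProbabilityTheory
open scoped MatrixGroups Modular ENNReal ModularForm ComplexConjugate ContDiff

/-- the row `(c, d)` belongs to the line `q` -/
def rowq {N : ℕ} (q : PX N) (c d : ℤ) : Prop :=
  match q with
  | none => (c : ZMod N) = 0
  | some x => (c : ZMod N) * x + (d : ZMod N) = 0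

/-- the mass of a form in the strip `1 / R ≤ y` -/
noncomputable def sm {N : ℕ} (f : S2 N) (R : ℝ) : ℝ :=
  ∑' n : ℕ, la f n ^ 2 * Real.exp (-4 * Real.pi * n / R)

/-- the part of the energy above height `N` -/
noncomputable def cuspm {N : ℕ} [Fact N.Prime] (f : S2 N) : ℝ :=
  (∑ q : PX N, ∫⁻ z in 𝒟ᵒ ∩ {z : ℍ | (N : ℝ) < z.im}, ‖fam f q z‖ₑ ^ 2 *
    ENNReal.ofReal (z.im ^ 2)).toReal

/-- all prime factors of `a` are at most `z` -/
def smooth (z a : ℕ) : Prop := a ≠ 0 ∧ ∀ p : ℕ, p.Prime → p ∣ a → p ≤ z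

/-- the density of rough numbers -/
noncomputable def VV (z : ℕ) : ℝ := ∏ p ∈ (Finset.Icc 1 z).filter Nat.Prime, (1 - 1 / (p : ℝ))

/-- the approximate density of the natural measure with respect to the harmonic measure -/
noncomputable def HA (z : ℕ) (A : Finset ℕ) (x : ℕ → ℝ) : ℝ :=
  ∑ a ∈ A, VV z / a * Um a x ^ 2

end Pool.Agent.KSL
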